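import Pool.Agent.H9.FC.TB

/-!
# MP_00464d_lc, module DCF: finitely many values can be decided
-/

namespace Pool.Agent.H54.FC.DCF

open Pool.Agent.H9.FC Set

theorem pf_DCF : T_DCF := by
  intro p Ω _ _ γ α f N U hf hU
  induction N with
  | zero => exact ⟨U, hU, subset_rfl, fun i hi => absurd hi (Nat.not_lt_zero i)⟩
  | succ N ih =>
    obtain ⟨V, hV, hVU, hc⟩ := ih
    obtain ⟨V', hV', hVV, c, hc'⟩ := hf N V hV
    refine ⟨V', hV', hVV.trans hVU, fun i hi => ?_⟩
    rcases Nat.lt_succ_iff_lt_or_eq.1 hi with h | h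
    · obtain ⟨c, hc⟩ := hc i h
      exact ⟨c, fun x hx => hc x (hVV hx)⟩
    · subst h
      exact ⟨c, hc'⟩

end Pool.Agent.H54.FC.DCF
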