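import Pool.Agent.H9.FC.TA

/-!
# MP_00464d_lc, module TRA: transfer of existential statements
-/

namespace Pool.Agent.H54.FC.TRA

open Pool.Agent.H9.FC BSet

theorem upd {ι α β : Type*} [DecidableEq ι] (g : α → β) (v : ι → α) (i : ι) (x : α) :
    (fun j => g (Function.update v i x j)) = Function.update (fun j => g (v j)) i (g x) := by
  funext j
  by_cases h : j = i
  · subst h
    simp
  · simp [h]

theorem pf_TRA (h1 : T_LOS) : T_TRA := by
  intro B _ M χ ψ i v hle hS
  have hG : fv χ (fun j => (v j).1) ∈ M.G := (h1 B M χ v).1 hS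
  have hG2 := M.up hG hle
  obtain ⟨x, hx, he⟩ := M.skolem ψ (fun j => (v j).1) (fun j => (v j).2) i
  rw [← he] at hG2
  refine ⟨⟨x, hx⟩, ?_⟩
  have h2 := (h1 B M ψ (Function.update v i ⟨x, hx⟩)).2 (by
    rw [upd (fun y : M.X => y.1) v i ⟨x, hx⟩]
    exact hG2)
  rw [upd M.cl v i ⟨x, hx⟩] at h2
  exact h2

end Pool.Agent.H54.FC.TRA
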